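import Pool.Agent.Y990.OA.Stm

/-!
# Project OA: concentration from the exponential supermartingale
-/

set_option autoImplicit false

namespace Pool.Agent.Y279.OA

open Pool.Agent.Y990.OA
open Pool.Agent.Y990.PL (Expl)
open H974 (Ex Ok ind Pr)

lemma Vt_eq {E W : Type} (T : Finset E) (t : E → Set W → Prop) (X : Set W) :
    Vt T t X = ∑ e ∈ T, ind (t e X) := by
  classical
  unfold Vt ind
  rw [Finset.card_filter]
  push_cast
  refine Finset.sum_congr rfl fun e _ => ?_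
  split_ifs <;> rfl

lemma Vt_nat {E W : Type} (T : Finset E) (t : E → Set W → Prop) (X : Set W) :
    ∃ w : ℕ, Vt T t X = w ∧ w ≤ T.card := by
  classical
  exact ⟨_, rfl, Finset.card_filter_le _ _⟩

lemma Mt_le {E W : Type} {p : E → ℝ} (hp : ∀ e, p e ≤ 1) (T : Finset E)
    (t : E → Set W → Prop) (X : Set W) (A : Finset E) : Mt p T t X A ≤ Vt T t X := by
  rw [Vt_eq]
  unfold Mt
  refine Finset.sum_le_sum fun e _ => ?_
  have h1 := H974.ind_nonneg (t e X)
  have h2 := H974.ind_nonneg (e ∈ A)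
  have h3 := hp e
  nlinarith

/-- the elementary inequality at one point -/
lemma point {N : ℕ} {v : ℕ} {K M : ℝ} (hK : 1 ≤ K) (hv : v ≤ N) (hM : M ≤ v) :
    ind (K * √(v : ℝ) < M) * M ≤ ∑ n ∈ Finset.Icc 1 N, (N : ℝ) * Real.exp (-(K ^ 2 / 2)) *
      Real.exp ((if K ^ 2 < (n : ℝ) then K / √(n : ℝ) else 0) * M -
        (if K ^ 2 < (n : ℝ) then K / √(n : ℝ) else 0) ^ 2 / 4 * v) := by
  have hnn : ∀ n ∈ Finset.Icc 1 N, 0 ≤ (N : ℝ) * Real.exp (-(K ^ 2 / 2)) *
      Real.exp ((if K ^ 2 < (n : ℝ) then K / √(n : ℝ) else 0) * M -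
        (if K ^ 2 < (n : ℝ) then K / √(n : ℝ) else 0) ^ 2 / 4 * v) := by
    intro n _
    positivity
  by_cases h : K * √(v : ℝ) < M
  · rw [H974.ind_of h, one_mul]
    have hv0 : (0 : ℝ) < v := by
      rcases Nat.eq_zero_or_pos v with h0 | h0
      · subst h0
        simp at h hM
        linarith
      · exact_mod_cast h0
    have hv1 : 1 ≤ v := by exact_mod_cast hv0
    have hs : 0 < √(v : ℝ) := Real.sqrt_pos.2 hv0
    have hss : √(v : ℝ) * √(v : ℝ) = v := Real.mul_self_sqrt hv0.le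
    have hKs : K < √(v : ℝ) := by
      have h1 : K * √(v : ℝ) < √(v : ℝ) * √(v : ℝ) := by
        rw [hss]
        linarith
      exact lt_of_mul_lt_mul_right h1 hs.le
    have hKv : K ^ 2 < v := by
      rw [← hss]
      nlinarith
    refine le_trans ?_ (Finset.single_le_sum hnn (Finset.mem_Icc.2 ⟨hv1, hv⟩))
    simp only [if_pos hKv]
    have h2 : 3 * K ^ 2 / 4 ≤ K / √(v : ℝ) * M - (K / √(v : ℝ)) ^ 2 / 4 * v := by
      have h3 : (K / √(v : ℝ)) ^ 2 / 4 * v = K ^ 2 / 4 := by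
        rw [div_pow, Real.sq_sqrt hv0.le]
        field_simp
      have h4 : K ^ 2 ≤ K / √(v : ℝ) * M := by
        have h5 : K / √(v : ℝ) * (K * √(v : ℝ)) = K ^ 2 := by
          field_simp
        rw [← h5]
        exact mul_le_mul_of_nonneg_left h.le (by positivity)
      rw [h3]
      linarith
    have h6 : 1 ≤ Real.exp (-(K ^ 2 / 2)) *
        Real.exp (K / √(v : ℝ) * M - (K / √(v : ℝ)) ^ 2 / 4 * v) := by
      rw [← Real.exp_add]
      apply Real.one_le_exp
      nlinarith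
    have hN : (v : ℝ) ≤ N := by exact_mod_cast hv
    have hN0 : (0 : ℝ) ≤ N := Nat.cast_nonneg N
    calc M ≤ v := hM
      _ ≤ (N : ℝ) * 1 := by linarith
      _ ≤ (N : ℝ) * (Real.exp (-(K ^ 2 / 2)) *
          Real.exp (K / √(v : ℝ) * M - (K / √(v : ℝ)) ^ 2 / 4 * v)) :=
          mul_le_mul_of_nonneg_left h6 hN0
      _ = _ := by ring
  · rw [H974.ind_not_of h, zero_mul]
    exact Finset.sum_nonneg hnn

theorem conc (h : S_exp) : S_conc := by
  intro E W _ S T p v C t hp hC hT K hK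
  have hl : ∀ n : ℕ, 0 ≤ (if K ^ 2 < (n : ℝ) then K / √(n : ℝ) else 0) ∧
      (if K ^ 2 < (n : ℝ) then K / √(n : ℝ) else 0) ≤ 1 := by
    intro n
    split_ifs with h1
    · have h2 : K < √(n : ℝ) := Real.lt_sqrt_of_sq_lt h1
      have h3 : 0 < √(n : ℝ) := by linarith
      refine ⟨by positivity, ?_⟩
      rw [div_le_one h3]
      exact h2.le
    · exact ⟨le_rfl, zero_le_one⟩
  have hE : ∀ n : ℕ, Ex p S (fun A => Real.exp ((if K ^ 2 < (n : ℝ) then K / √(n : ℝ) else 0) *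
      Mt p T t (C A) A - (if K ^ 2 < (n : ℝ) then K / √(n : ℝ) else 0) ^ 2 / 4 *
        Vt T t (C A))) ≤ 1 := fun n => h E W S T p v C t hp hC hT _ (hl n).1 (hl n).2
  calc Ex p S (fun A => ind (K * √(Vt T t (C A)) < Mt p T t (C A) A) * Mt p T t (C A) A)
      ≤ Ex p S (fun A => ∑ n ∈ Finset.Icc 1 T.card, (T.card : ℝ) * Real.exp (-(K ^ 2 / 2)) *
          Real.exp ((if K ^ 2 < (n : ℝ) then K / √(n : ℝ) else 0) * Mt p T t (C A) A -
          (if K ^ 2 < (n : ℝ) then K / √(n : ℝ) else 0) ^ 2 / 4 * Vt T t (C A))) := by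
        refine H974.Ex_mono hp fun A _ => ?_
        have h1 := Mt_le (fun e => (hp e).2) T t (C A) A
        obtain ⟨w, hw, hwT⟩ := Vt_nat T t (C A)
        rw [hw] at h1 ⊢
        exact point hK hwT h1
    _ = ∑ n ∈ Finset.Icc 1 T.card, (T.card : ℝ) * Real.exp (-(K ^ 2 / 2)) *
          Ex p S (fun A => Real.exp ((if K ^ 2 < (n : ℝ) then K / √(n : ℝ) else 0) *
          Mt p T t (C A) A - (if K ^ 2 < (n : ℝ) then K / √(n : ℝ) else 0) ^ 2 / 4 *
          Vt T t (C A))) := by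
        rw [H974.Ex_sum]
        refine Finset.sum_congr rfl fun n _ => ?_
        rw [← H974.Ex_mul_left]
    _ ≤ ∑ n ∈ Finset.Icc 1 T.card, (T.card : ℝ) * Real.exp (-(K ^ 2 / 2)) * 1 :=
        Finset.sum_le_sum fun n _ => mul_le_mul_of_nonneg_left (hE n) (by positivity)
    _ = (T.card : ℝ) ^ 2 * Real.exp (-(K ^ 2 / 2)) := by
        rw [Finset.sum_const, Nat.card_Icc, nsmul_eq_mul]
        push_cast
        ring

end Pool.Agent.Y279.OA
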